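import Mathlib
import Pool.Agent.H15.GD

set_option autoImplicit false

namespace Pool.Agent.Results.MP_bde484_co.Counter

open SimpleGraph Finset

/-- `X` is a `d`-distance dominating set and a `p`-packing. -/
def DomPack {V : Type} (G : SimpleGraph V) (d p : ℕ) (X : Finset V) : Prop :=
  (∀ u ∉ X, ∃ x ∈ X, G.dist u x ≤ d) ∧ ∀ u ∈ X, ∀ v ∈ X, u ≠ v → p + 1 ≤ G.dist u v

def leg (x : ℕ) : ℕ := (x - 1) / 12
def br (x : ℕ) : ℕ := if (x - 1) % 12 < 7 then 0 else 1
def dp (x : ℕ) : ℕ := if x = 0 then 0 else if (x - 1) % 12 < 7 then (x - 1) % 12 + 1 else (x - 1) % 12 - 4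

def D (x y : Fin 61) : ℕ :=
  if leg x ≠ leg y then dp x + dp y
  else if br x = br y ∨ dp x ≤ 2 ∨ dp y ≤ 2 then dp x - dp y + (dp y - dp x) else dp x + dp y - 4

/-- A spider with five legs of length 2; two paths with 5 vertices hang from each leg end. -/
def T : SimpleGraph (Fin 61) where
  Adj x y := D x y = 1
  symm := ⟨by decide +kernel⟩
  loopless := ⟨by decide +kernel⟩

instance : DecidableRel T.Adj := fun x y => inferInstanceAs (Decidable (D x y = 1))

lemma tab : T.Connected ∧ ∀ a b, T.dist a b = D a b :=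
  Pool.Agent.H15.GD.table D (by decide +kernel)
    (fun a u v h => (by decide +kernel : ∀ u v, T.Adj u v → ∀ a, D a v ≤ D a u + 1) u v h a)
    (by decide +kernel)

def cls (x : Fin 61) : ℕ := if dp x ≤ 3 then 10 else 2 * leg x + br x

lemma f1 : ∀ j < 10, ∃ e : Fin 61, ∀ x, D e x ≤ 6 → cls x = j ∨ cls x = 10 ∧ leg x = j / 2 := by
  decide +kernel

lemma f2 : ∀ x y, cls x = 10 → cls y = 10 → D x y ≤ 6 := by decide +kernel

lemma low (X : Finset (Fin 61)) (h : DomPack T 6 6 X) : 9 ≤ #X := by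
  obtain ⟨h1, h2⟩ := h
  simp only [tab.2] at h1 h2
  have k : ∀ j < 10, ∃ x ∈ X, cls x = j ∨ cls x = 10 ∧ leg x = j / 2 := fun j hj => by
    obtain ⟨e, he⟩ := f1 j hj
    by_cases m : e ∈ X
    · exact ⟨e, m, he e (by rw [← tab.2]; simp)⟩
    · obtain ⟨x, hx, d⟩ := h1 e m; exact ⟨x, hx, he x d⟩
  refine le_trans ?_ (card_image_le (f := cls))
  by_cases n : ∃ y ∈ X, cls y = 10
  · obtain ⟨y, hy, c⟩ := n
    refine le_trans ?_ (card_le_card (s := {j ∈ range 11 | j = 10 ∨ j / 2 ≠ leg y}) fun j hj => ?_)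
    · clear hy c; revert y; decide +kernel
    simp only [mem_filter, mem_range] at hj
    by_cases e : j = 10
    · exact mem_image.2 ⟨y, hy, c.trans e.symm⟩
    obtain ⟨x, hx, a | ⟨a, b⟩⟩ := k j (by omega)
    · exact mem_image.2 ⟨x, hx, a⟩
    · obtain rfl : x = y := by_contra fun q => by have := h2 x hx y hy q; have := f2 x y a c; omega
      omega
  · refine le_trans (by simp) (card_le_card (s := range 10) fun j hj => ?_)
    obtain ⟨x, hx, a | ⟨a, -⟩⟩ := k j (mem_range.1 hj)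
    exacts [mem_image.2 ⟨x, hx, a⟩, absurd ⟨x, hx, a⟩ n]

theorem result : ∃ (p d n : ℕ) (G : SimpleGraph (Fin n)), 3 ≤ p ∧ p ≤ d ∧ G.IsTree ∧
    ∀ X, DomPack G d p X → ((n : ℝ) - 2 * √n + d + 1) / d < #X := by
  refine ⟨6, 6, 61, T, by simp, le_rfl, isTree_iff_connected_and_card.2 ⟨tab.1, ?_⟩, fun X h => ?_⟩
  · have := T.sum_degrees_eq_twice_card_edges
    rw [show ∑ v, T.degree v = 120 by decide +kernel, edgeFinset_card, ← Nat.card_eq_fintype_card] at this
    simp only [Nat.card_eq_fintype_card (α := Fin 61), Fintype.card_fin]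
    omega
  · have : (9 : ℝ) ≤ #X := by exact_mod_cast low X h
    have : (7 : ℝ) < √(61 : ℕ) := Real.lt_sqrt_of_sq_lt (by norm_num)
    push_cast at *
    linarith

end Pool.Agent.Results.MP_bde484_co.Counter
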